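import Mathlib

set_option autoImplicit false

/-! # Definitions: predictors from the binary digits (for MP_ebc808_nt and MP_a3366f_nt) -/

namespace Pool.Agent.U286.DP

/-- `u(n)` can be computed in one pass over the binary digits of `n` with `Q` memory states: either for
every `k` the value `u(2 ^ k n + r)` (`n ≥ 1`, `r < 2 ^ k`) depends only on `n` and on one of `Q` states
which is determined by `r` (the digits are read from the lowest one), or for every `k` it depends only
on `r` and on one of `Q` states which is determined by `n` (from the highest one) -/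
def OnePass (Q : ℕ) (u : ℕ → ZMod 2) : Prop :=
  (∀ k : ℕ, ∃ (s : ℕ → Fin Q) (h : Fin Q → ℕ → ZMod 2), ∀ n r : ℕ, 1 ≤ n → r < 2 ^ k →
    u (2 ^ k * n + r) = h (s r) n) ∨
  (∀ k : ℕ, ∃ (s : ℕ → Fin Q) (h : Fin Q → ℕ → ZMod 2), ∀ n r : ℕ, 1 ≤ n → r < 2 ^ k →
    u (2 ^ k * n + r) = h (s n) r)

/-- the binary digit of `n` at the place `j` (`j = 0` is the lowest), as an element of `F_2` -/
def digit (j n : ℕ) : ZMod 2 := ((n / 2 ^ j : ℕ) : ZMod 2)

/-- `u` is a polynomial over `F_2` of degree at most `D` in the binary digits of `n`, with coefficients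
which are Boolean functions of the outputs `v_1(n), …, v_R(n)` of `R` one-pass computations with `Q`
states: `u(n)` is the sum, over finitely many sets `S` of at most `D` places, of `Φ_S (v(n))` times the
product of the digits of `n` at the places in `S` -/
def DigitPoly (D R Q : ℕ) (u : ℕ → ZMod 2) : Prop :=
  ∃ (v : Fin R → ℕ → ZMod 2) (M : Finset (Finset ℕ)) (Φ : Finset ℕ → (Fin R → ZMod 2) → ZMod 2),
    (∀ z, OnePass Q (v z)) ∧ (∀ S ∈ M, S.card ≤ D) ∧
    ∀ n, u n = ∑ S ∈ M, Φ S (fun z => v z n) * ∏ j ∈ S, digit j n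

/-- on the residue class `ρ` modulo `2 ^ b` the function `u` has rank at most `q` at the cut between the
`b + k` lowest digits and the others: there, `u(n)` is a sum of `q` products of a function of the
`b + k` lowest digits of `n` and a function of the other digits (`n ≥ 2 ^ (b + k)`). Every function
has this property for `q = 2 ^ k`. -/
def RankLE (b k q ρ : ℕ) (u : ℕ → ZMod 2) : Prop :=
  ∃ g h : Fin q → ℕ → ZMod 2, ∀ n i : ℕ, 1 ≤ n → i < 2 ^ k →
    u (2 ^ (b + k) * n + (2 ^ b * i + ρ % 2 ^ b)) = ∑ j, g j i * h j n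

end Pool.Agent.U286.DP
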