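import Pool.Agent.N493.PE5
import Pool.Agent.U286.DP.Def

set_option autoImplicit false

/-! # Joint patterns of multipartition numbers against predictors of low `F_2`-rank -/

namespace Pool.Agent.U286.DP

open Finset Pool.Agent.R836.PP PowerSeries
open Pool.Agent.N493.PD (Ft Sh Sh_pow aeval_Sh PolyOf PolyOf_deg PolyOf_ne PolyOf_apply ev_absorb)
open Pool.Agent.N493.PE (wF valsW joint_all)

/-- a sum of translates of a nonzero pattern is a nonzero pattern -/
theorem exists_sumP {L : ℕ} (c : Fin (L + 1) → ZMod 2) (hc : c ≠ 0) (D : ℕ) (Y : Finset ℕ)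
    (hY : Y.Nonempty) (hYD : ∀ r ∈ Y, r < D) :
    ∃ c' : Fin (D + L + 1) → ZMod 2, c' ≠ 0 ∧ ∀ (φ : ℕ → ZMod 2) (n : ℕ),
      ∑ i : Fin (D + L + 1), c' i * φ (n + i) =
        ∑ r ∈ Y, ∑ i : Fin (L + 1), c i * φ (n + r + i) := by
  classical
  set P : Polynomial (ZMod 2) := ∑ r ∈ Y, Polynomial.X ^ r with hP
  have hP0 : P ≠ 0 := by
    intro h
    obtain ⟨r, hr⟩ := hY
    have h2 := congrArg (fun q => Polynomial.coeff q r) h
    simp only [hP, Polynomial.finsetSum_coeff, Polynomial.coeff_X_pow, Finset.sum_ite_eq, if_pos hr,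
      Polynomial.coeff_zero] at h2
    exact one_ne_zero h2
  have hPd : P.natDegree ≤ D := by
    refine Polynomial.natDegree_sum_le_of_forall_le _ _ fun r hr => ?_
    rw [Polynomial.natDegree_X_pow]
    exact (hYD r hr).le
  have hQ0 := mul_ne_zero hP0 (PolyOf_ne c hc)
  have hQd : (P * PolyOf c).natDegree < D + L + 1 :=
    Nat.lt_succ_of_le (Polynomial.natDegree_mul_le.trans (add_le_add hPd (PolyOf_deg c)))
  refine ⟨fun i => (P * PolyOf c).coeff i, ?_, ?_⟩
  · intro h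
    apply hQ0
    ext i
    by_cases hi : i < D + L + 1
    · have := congrFun h ⟨i, hi⟩
      simpa using this
    · rw [Polynomial.coeff_eq_zero_of_natDegree_lt (by omega), Polynomial.coeff_zero]
  · intro φ n
    have h1 : ∑ i : Fin (D + L + 1), (P * PolyOf c).coeff i * φ (n + i) =
        (Polynomial.aeval Sh (P * PolyOf c)) φ n := by
      rw [aeval_Sh _ (D + L + 1) hQd, Finset.sum_range]
    rw [h1, map_mul]
    show (Polynomial.aeval Sh P) ((Polynomial.aeval Sh (PolyOf c)) φ) n = _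
    rw [hP, map_sum, LinearMap.sum_apply, Finset.sum_apply]
    refine Finset.sum_congr rfl fun r _ => ?_
    rw [map_pow, Polynomial.aeval_X, Sh_pow, PolyOf_apply]

/-- the same for joint patterns -/
theorem exists_sumJ {A L : ℕ} (c : Fin (A + 1) → Fin (L + 1) → ZMod 2) (hc : c ≠ 0) (k : ℕ)
    (Y : Finset ℕ) (hY : Y.Nonempty) (hYD : ∀ r ∈ Y, r < 2 ^ k) :
    ∃ c' : Fin (A + 1) → Fin (4 ^ A * 2 ^ k + L + 1) → ZMod 2, c' ≠ 0 ∧
      ∀ (φ : ℕ → ZMod 2) (n : ℕ), wF c' φ n = ∑ r ∈ Y, wF c φ (n + r) := by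
  classical
  have h : ∀ a : Fin (A + 1), ∃ c' : Fin (4 ^ A * 2 ^ k + L + 1) → ZMod 2, (c a ≠ 0 → c' ≠ 0) ∧
      ∀ (φ : ℕ → ZMod 2) (n : ℕ), ∑ i : Fin (4 ^ A * 2 ^ k + L + 1), c' i * φ (n + i) =
        ∑ r ∈ Y, ∑ i : Fin (L + 1), c a i * φ (n + 4 ^ (a : ℕ) * r + i) := by
    intro a
    by_cases hca : c a = 0
    · refine ⟨0, fun h => absurd hca h, fun φ n => ?_⟩
      simp [hca]
    · have h4 : 0 < 4 ^ (a : ℕ) := by positivity
      have h5 : 4 ^ (a : ℕ) ≤ 4 ^ A := Nat.pow_le_pow_right (by norm_num) (Nat.lt_succ_iff.1 a.2)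
      have hb : ∀ s, s < 2 ^ k → 4 ^ (a : ℕ) * s < 4 ^ A * 2 ^ k := by
        intro s hs
        calc 4 ^ (a : ℕ) * s < 4 ^ (a : ℕ) * 2 ^ k := Nat.mul_lt_mul_of_pos_left hs h4
          _ ≤ 4 ^ A * 2 ^ k := Nat.mul_le_mul_right _ h5
      have hinj : Function.Injective fun s : ℕ => 4 ^ (a : ℕ) * s :=
        fun s s' hs => Nat.eq_of_mul_eq_mul_left h4 hs
      obtain ⟨c', h1, h2⟩ := exists_sumP (c a) hca (4 ^ A * 2 ^ k)
        (Y.image fun s => 4 ^ (a : ℕ) * s) (hY.image _) (by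
          intro r hr
          rw [mem_image] at hr
          obtain ⟨s, hs, rfl⟩ := hr
          exact hb s (hYD s hs))
      refine ⟨c', fun _ => h1, fun φ n => ?_⟩
      rw [h2, Finset.sum_image (fun s _ s' _ hs => hinj hs)]
  choose c' hc'1 hc'2 using h
  refine ⟨c', ?_, ?_⟩
  · intro h0
    apply hc
    funext a
    by_contra hca
    exact hc'1 a hca (congrFun h0 a)
  · intro φ n
    unfold wF
    rw [Finset.sum_comm (s := Y) (t := Finset.univ)]
    refine Finset.sum_congr rfl fun a _ => ?_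
    rw [hc'2 a φ (4 ^ (a : ℕ) * n)]
    refine Finset.sum_congr rfl fun r _ => ?_
    rw [mul_add]

theorem zmod2_ne (a : ZMod 2) (h : a ≠ 1) : a = 0 := by
  revert h a
  decide

/-- counting for a set of classes on which the predictor sums to zero -/
theorem count_set (W W' : ℕ → ZMod 2) (D m : ℕ) (hD : 0 < D) (hm : m ∣ D) (Y : Finset ℕ)
    (hYD : ∀ r ∈ Y, r < D) (ρ : ℕ) (hρ : ∀ r ∈ Y, r % m = ρ % m)
    (hW : ∀ n, W' (D * n) = ∑ r ∈ Y, W (D * n + r))
    (u : ℕ → ZMod 2) (hu : ∀ n, 1 ≤ n → ∑ r ∈ Y, u (D * n + r) = 0) (x : ℕ) :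
    ((range (x + 1)).filter fun n => n % D = 0 % D ∧ W' n = 1).card ≤
      ((range (x + 1)).filter fun n => n % m = ρ % m ∧ W n + u n = 1).card + (D + 1) := by
  classical
  set B := (range (x + 1)).filter fun n => n % m = ρ % m ∧ W n + u n = 1 with hB
  set V := (range (x + 1)).filter fun n => n % D = 0 % D ∧ W' n = 1 with hV
  set V' := V.filter fun N => 1 ≤ N ∧ N + D ≤ x with hV'
  have h1 : V.card ≤ V'.card + (D + 1) := by
    have hsub : V ⊆ V' ∪ ({0} ∪ Ioc (x - D) x) := by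
      intro N hN
      rw [mem_union, mem_union, mem_singleton, mem_Ioc]
      have hN' := hN
      rw [hV, mem_filter, mem_range] at hN'
      by_cases h0 : N = 0
      · exact Or.inr (Or.inl h0)
      · by_cases h2 : N + D ≤ x
        · left
          rw [hV', mem_filter]
          exact ⟨hN, by omega, h2⟩
        · exact Or.inr (Or.inr ⟨by omega, by omega⟩)
    calc V.card ≤ _ := card_le_card hsub
      _ ≤ _ := card_union_le _ _
      _ ≤ V'.card + (D + 1) := by
        apply Nat.add_le_add_left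
        refine (card_union_le _ _).trans ?_
        rw [card_singleton, Nat.card_Ioc]
        omega
  have h2 : V'.card ≤ B.card := by
    have key : ∀ N ∈ V', ∃ r, D ∣ N ∧ N + D ≤ x ∧ r ∈ Y ∧ W (N + r) + u (N + r) = 1 := by
      intro N hN
      rw [hV', mem_filter, hV] at hN
      obtain ⟨hN, hN1, hN2⟩ := hN
      rw [mem_filter, Nat.zero_mod] at hN
      obtain ⟨-, hN3, hN4⟩ := hN
      have hdvd : D ∣ N := Nat.dvd_of_mod_eq_zero hN3
      by_contra hcon
      push Not at hcon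
      obtain ⟨n, rfl⟩ := hdvd
      have hn : 1 ≤ n := by
        rcases Nat.eq_zero_or_pos n with h0 | h0
        · rw [h0] at hN1; simp at hN1
        · exact h0
      have e2 := hW n
      rw [hN4] at e2
      have e3 := hu n hn
      have e4 : ∑ r ∈ Y, (W (D * n + r) + u (D * n + r)) = 0 :=
        Finset.sum_eq_zero fun r hr => zmod2_ne _ (hcon r ⟨n, rfl⟩ hN2 hr)
      rw [Finset.sum_add_distrib, ← e2, e3, add_zero] at e4
      exact one_ne_zero e4
    choose! F hF using key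
    apply card_le_card_of_injOn (fun N => N + F N)
    · intro N hN
      rw [mem_coe] at hN
      obtain ⟨k1, k2, k3, k4⟩ := hF N hN
      have hmN : N % m = 0 := Nat.mod_eq_zero_of_dvd (hm.trans k1)
      have hr := hYD _ k3
      simp only
      rw [mem_coe, hB, mem_filter, mem_range]
      refine ⟨by omega, ?_, k4⟩
      rw [Nat.add_mod, hmN, zero_add, Nat.mod_mod, hρ _ k3]
    · intro N hN N' hN' h
      rw [mem_coe] at hN hN'
      obtain ⟨⟨a, ha⟩, -, k3, -⟩ := hF N hN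
      obtain ⟨⟨a', ha'⟩, -, k3', -⟩ := hF N' hN'
      have hr := hYD _ k3
      have hr' := hYD _ k3'
      have h' : (N + F N) / D = (N' + F N') / D := congrArg (fun z => z / D) h
      rw [ha, ha', Nat.mul_add_div hD, Nat.mul_add_div hD, ← ha, ← ha', Nat.div_eq_of_lt hr,
        Nat.div_eq_of_lt hr', add_zero, add_zero] at h'
      rw [ha, ha', h']
  omega

/-- **joint patterns against predictors of low rank** -/
theorem main_rank (t b A L K k : ℕ) (ht : t % 2 = 1) :
    ∃ X0 : ℕ, ∀ (c : Fin (A + 1) → Fin (L + 1) → ZMod 2), c ≠ 0 → ∀ (ι : Type) [Fintype ι],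
      Fintype.card ι < 2 ^ k → ∀ (ρ : ℕ) (u : ℕ → ZMod 2) (g h : ι → ℕ → ZMod 2),
      (∀ n i : ℕ, 1 ≤ n → i < 2 ^ k →
        u (2 ^ (b + k) * n + (2 ^ b * i + ρ % 2 ^ b)) = ∑ j, g j i * h j n) → ∀ x : ℕ, X0 ≤ x →
        Real.sqrt x * (Real.log (Real.log x)) ^ K / Real.log x ≤
          (((range (x + 1)).filter fun n => n % 2 ^ b = ρ % 2 ^ b ∧
            wF c (fun n => coeff n (Ft t)) n + u n = 1).card : ℝ) := by
  classical
  set k' := b + k with hk'
  have h1 : ∀ c' : Fin (A + 1) → Fin (4 ^ A * 2 ^ k' + L + 1) → ZMod 2, ∃ X0 : ℕ, c' ≠ 0 →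
      ∀ x : ℕ, X0 ≤ x → Real.sqrt x * (Real.log (Real.log x)) ^ (K + 1) / Real.log x ≤
      ((valsW c' (fun n => coeff n (Ft t)) (2 ^ k') 0 x).card : ℝ) := by
    intro c'
    by_cases hc' : c' = 0
    · exact ⟨0, fun h => absurd hc' h⟩
    · obtain ⟨X0, hX0⟩ := joint_all t k' (K + 1) ht c' hc' 0
      exact ⟨X0, fun _ => hX0⟩
  choose X0 hX0 using h1
  obtain ⟨X1, hX1⟩ := ev_absorb K ((2 ^ k' + 1 : ℕ) : ℝ)
  refine ⟨max (Finset.univ.sup X0) X1, fun c hc ι _ hι ρ u g h hu x hx => ?_⟩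
  rw [max_le_iff] at hx
  have hb : 0 < 2 ^ b := by positivity
  -- a nontrivial relation between the classes
  obtain ⟨y, hy0, hy⟩ : ∃ y : Fin (2 ^ k) → ZMod 2, y ≠ 0 ∧ ∀ j, ∑ i, y i * g j i = 0 := by
    set f : (Fin (2 ^ k) → ZMod 2) →ₗ[ZMod 2] (ι → ZMod 2) :=
      { toFun := fun y j => ∑ i, y i * g j i
        map_add' := fun y y' => by
          funext j
          simp [add_mul, Finset.sum_add_distrib]
        map_smul' := fun a y => by
          funext j
          simp [Finset.mul_sum, mul_assoc] } with hf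
    have hker : LinearMap.ker f ≠ ⊥ := by
      apply LinearMap.ker_ne_bot_of_finrank_lt
      simpa using hι
    obtain ⟨y, hy, hy0⟩ := (Submodule.ne_bot_iff _).1 hker
    exact ⟨y, hy0, fun j => congrFun (LinearMap.mem_ker.1 hy) j⟩
  set I : Finset (Fin (2 ^ k)) := univ.filter fun i => y i = 1 with hI
  set rr : Fin (2 ^ k) → ℕ := fun i => 2 ^ b * (i : ℕ) + ρ % 2 ^ b with hrr
  have hrinj : Function.Injective rr := by
    intro i j hij
    have h2 : 2 ^ b * (i : ℕ) = 2 ^ b * (j : ℕ) := by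
      have : 2 ^ b * (i : ℕ) + ρ % 2 ^ b = 2 ^ b * (j : ℕ) + ρ % 2 ^ b := hij
      omega
    exact Fin.ext (Nat.eq_of_mul_eq_mul_left hb h2)
  have hlt : ∀ i, rr i < 2 ^ k' := by
    intro i
    have h1 := Nat.mod_lt ρ hb
    have h2 := i.2
    have h3 : 2 ^ k' = 2 ^ b * 2 ^ k := by rw [hk', pow_add]
    rw [h3]
    calc rr i = 2 ^ b * (i : ℕ) + ρ % 2 ^ b := rfl
      _ < 2 ^ b * (i : ℕ) + 2 ^ b := by omega
      _ = 2 ^ b * ((i : ℕ) + 1) := by ring
      _ ≤ 2 ^ b * 2 ^ k := Nat.mul_le_mul_left _ h2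
  have hI0 : I.Nonempty := by
    by_contra hcon
    apply hy0
    funext i
    apply zmod2_ne
    intro hi
    apply hcon
    exact ⟨i, by rw [hI, mem_filter]; exact ⟨mem_univ _, hi⟩⟩
  have hsum : ∀ F : Fin (2 ^ k) → ZMod 2, ∑ i ∈ I, F i = ∑ i, y i * F i := by
    intro F
    rw [hI, Finset.sum_filter]
    refine Finset.sum_congr rfl fun i _ => ?_
    by_cases hi : y i = 1
    · rw [if_pos hi, hi, one_mul]
    · rw [if_neg hi, zmod2_ne _ hi, zero_mul]
  obtain ⟨c', hc'0, hc'⟩ := exists_sumJ c hc k' (I.image rr) (hI0.image _) (by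
    intro r hr
    rw [mem_image] at hr
    obtain ⟨i, -, rfl⟩ := hr
    exact hlt i)
  have h2 := hX0 c' hc'0 x ((Finset.le_sup (mem_univ c')).trans hx.1)
  have h3 := count_set (wF c (fun n => coeff n (Ft t))) (wF c' (fun n => coeff n (Ft t)))
    (2 ^ k') (2 ^ b) (by positivity) (pow_dvd_pow 2 (by omega)) (I.image rr) (by
      intro r hr
      rw [mem_image] at hr
      obtain ⟨i, -, rfl⟩ := hr
      exact hlt i) ρ (by
      intro r hr
      rw [mem_image] at hr
      obtain ⟨i, -, rfl⟩ := hr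
      show (2 ^ b * (i : ℕ) + ρ % 2 ^ b) % 2 ^ b = _
      rw [Nat.mul_add_mod, Nat.mod_mod]) (fun n => hc' _ _) u (by
      intro n hn
      rw [Finset.sum_image (fun s _ s' _ hs => hrinj hs), hsum]
      have e1 : ∀ i : Fin (2 ^ k), y i * u (2 ^ k' * n + rr i) =
          ∑ j, (y i * g j i) * h j n := by
        intro i
        have := hu n i hn i.2
        simp only [hrr]
        rw [this, Finset.mul_sum]
        exact Finset.sum_congr rfl fun j _ => by ring
      rw [Finset.sum_congr rfl fun i _ => e1 i, Finset.sum_comm]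
      apply Finset.sum_eq_zero
      intro j _
      rw [← Finset.sum_mul, hy j, zero_mul]) x
  apply hX1 x hx.2
  refine h2.trans ?_
  have h4 : (valsW c' (fun n => coeff n (Ft t)) (2 ^ k') 0 x).card =
      ((range (x + 1)).filter fun n => n % 2 ^ k' = 0 % 2 ^ k' ∧
        wF c' (fun n => coeff n (Ft t)) n = 1).card := by
    unfold valsW
    congr 1
  rw [h4]
  exact_mod_cast h3

end Pool.Agent.U286.DP
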