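import Pool.Agent.U286.DP.Poly

set_option autoImplicit false

/-! # Joint patterns of multipartition numbers against polynomials in the binary digits -/

namespace Pool.Agent.U286.DP

open Finset Pool.Agent.R836.PP PowerSeries
open Pool.Agent.N493.PD (Ft)
open Pool.Agent.N493.PE (wF)

/-- the exponential beats the number of the products -/
theorem exists_k (b C D : ℕ) : ∃ k : ℕ, C * (b + k + 1) ^ D + 1 < 2 ^ k := by
  have h1 := tendsto_pow_const_div_const_pow_of_one_lt D (r := (2 : ℝ)) (by norm_num)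
  have h2 : ∀ᶠ n : ℕ in Filter.atTop, (n : ℝ) ^ D / 2 ^ n < 1 / ((C + 2) * 2 ^ (b + 1)) :=
    h1.eventually_lt_const (by positivity)
  obtain ⟨m, hm1, hm2⟩ := (h2.and (Filter.eventually_ge_atTop (b + 1))).exists
  refine ⟨m - (b + 1), ?_⟩
  have e1 : b + (m - (b + 1)) + 1 = m := by omega
  rw [e1]
  have h3 : (m : ℝ) ^ D * ((C + 2) * 2 ^ (b + 1)) < 2 ^ m := by
    rw [div_lt_div_iff₀ (by positivity) (by positivity), one_mul] at hm1
    exact hm1
  have h4 : m ^ D * ((C + 2) * 2 ^ (b + 1)) < 2 ^ m := by exact_mod_cast h3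
  have h5 : 2 ^ m = 2 ^ (m - (b + 1)) * 2 ^ (b + 1) := by
    rw [← pow_add]
    congr 1
    omega
  have h6 : m ^ D * (C + 2) < 2 ^ (m - (b + 1)) := by
    rw [h5, ← mul_assoc] at h4
    exact Nat.lt_of_mul_lt_mul_right h4
  have h7 : 1 ≤ m ^ D := Nat.one_le_pow _ _ (by omega)
  nlinarith

/-- `RankLE` -/
theorem main_rankLE (t b A L K k q : ℕ) (ht : t % 2 = 1) (hq : q < 2 ^ k) :
    ∃ X0 : ℕ, ∀ x : ℕ, X0 ≤ x → ∀ (c : Fin (A + 1) → Fin (L + 1) → ZMod 2), c ≠ 0 →
      ∀ (ρ : ℕ) (u : ℕ → ZMod 2), RankLE b k q ρ u →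
        Real.sqrt x * (Real.log (Real.log x)) ^ K / Real.log x ≤
          (((range (x + 1)).filter fun n => n % 2 ^ b = ρ % 2 ^ b ∧
            wF c (fun n => coeff n (Ft t)) n + u n = 1).card : ℝ) := by
  obtain ⟨X0, hX0⟩ := main_rank t b A L K k ht
  refine ⟨X0, fun x hx c hc ρ u hu => ?_⟩
  obtain ⟨g, h, hgh⟩ := hu
  exact hX0 c hc (Fin q) (by simpa using hq) ρ u g h hgh x hx

/-- every function has rank at most `2 ^ k` -/
theorem rankLE_all (b k ρ : ℕ) (u : ℕ → ZMod 2) : RankLE b k (2 ^ k) ρ u := by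
  classical
  refine ⟨fun j i => if i = (j : ℕ) then 1 else 0,
    fun j n => u (2 ^ (b + k) * n + (2 ^ b * (j : ℕ) + ρ % 2 ^ b)), fun n i _ hi => ?_⟩
  rw [Finset.sum_eq_single (⟨i, hi⟩ : Fin (2 ^ k))]
  · simp
  · intro j _ hj
    have h : ¬ i = (j : ℕ) := fun h => hj (Fin.ext h.symm)
    simp only [if_neg h, zero_mul]
  · intro h
    exact absurd (mem_univ _) h

theorem kap : ∀ κ w u : ZMod 2, w + (u + (κ + 1)) = 1 ↔ w + u = κ := by decide

/-- **joint patterns against polynomials of bounded degree in the binary digits** -/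
theorem main_poly (t b A L K D R Q : ℕ) (ht : t % 2 = 1) :
    ∃ X0 : ℕ, ∀ x : ℕ, X0 ≤ x → ∀ (c : Fin (A + 1) → Fin (L + 1) → ZMod 2), c ≠ 0 →
      ∀ u : ℕ → ZMod 2, DigitPoly D R Q u → ∀ (ρ : ℕ) (κ : ZMod 2),
        Real.sqrt x * (Real.log (Real.log x)) ^ K / Real.log x ≤
          (((range (x + 1)).filter fun n => n % 2 ^ b = ρ % 2 ^ b ∧
            wF c (fun n => coeff n (Ft t)) n + u n = κ).card : ℝ) := by
  classical
  obtain ⟨k, hk⟩ := exists_k b (Fintype.card (Ty R Q)) D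
  obtain ⟨X0, hX0⟩ := main_rank t b A L K k ht
  refine ⟨X0, fun x hx c hc u hu ρ κ => ?_⟩
  obtain ⟨g, h, hgh⟩ := hu.rank (b + k)
  have hb : 0 < 2 ^ b := by positivity
  have hlt : ∀ i, i < 2 ^ k → 2 ^ b * i + ρ % 2 ^ b < 2 ^ (b + k) := by
    intro i hi
    have h1 := Nat.mod_lt ρ hb
    rw [pow_add]
    calc 2 ^ b * i + ρ % 2 ^ b < 2 ^ b * i + 2 ^ b := by omega
      _ = 2 ^ b * (i + 1) := by ring
      _ ≤ 2 ^ b * 2 ^ k := Nat.mul_le_mul_left _ hi
  have hcard : Fintype.card (Option (Ty R Q × {S // S ∈ low (b + k) D})) < 2 ^ k := by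
    rw [Fintype.card_option, Fintype.card_prod, Fintype.card_coe]
    refine lt_of_le_of_lt ?_ hk
    exact Nat.add_le_add_right (Nat.mul_le_mul_left _ (card_low _ _)) _
  have h3 := hX0 c hc (Option (Ty R Q × {S // S ∈ low (b + k) D})) hcard ρ (fun n => u n + (κ + 1))
    (fun o i => o.elim (κ + 1) fun p => g p (2 ^ b * i + ρ % 2 ^ b))
    (fun o n => o.elim 1 fun p => h p n) (by
      intro n i hn hi
      rw [Fintype.sum_option]
      simp only [Option.elim_none, Option.elim_some, mul_one]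
      rw [hgh n _ hn (hlt i hi)]
      ring) x hx
  simp only [kap] at h3
  exact h3

end Pool.Agent.U286.DP
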