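import Pool.Agent.U286.DP.Core

set_option autoImplicit false

/-! # The rank of polynomials in the binary digits -/

namespace Pool.Agent.U286.DP

open Finset Pool.Agent.R836.PP PowerSeries
open Pool.Agent.N493.PD (Ft)
open Pool.Agent.N493.PE (wF)

/-- the sets of at most `D` places below `k` -/
def low (k D : ℕ) : Finset (Finset ℕ) := (range k).powerset.filter fun S => S.card ≤ D

theorem card_low (k D : ℕ) : (low k D).card ≤ (k + 1) ^ D := by
  classical
  induction D with
  | zero =>
    have : low k 0 ⊆ {∅} := by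
      intro S hS
      unfold low at hS
      rw [mem_filter, Nat.le_zero, card_eq_zero] at hS
      rw [mem_singleton]
      exact hS.2
    simpa using card_le_card this
  | succ D ih =>
    have hsub : low k (D + 1) ⊆ ((range (k + 1)) ×ˢ low k D).image
        fun p => if p.1 = k then p.2 else insert p.1 p.2 := by
      intro S hS
      unfold low at hS
      rw [mem_filter, mem_powerset] at hS
      rw [mem_image]
      by_cases h : S.card ≤ D
      · refine ⟨(k, S), ?_, by simp⟩
        rw [mem_product]
        refine ⟨by simp, ?_⟩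
        unfold low
        rw [mem_filter, mem_powerset]
        exact ⟨hS.1, h⟩
      · have hne : S.Nonempty := by
          rw [← card_pos]
          omega
        obtain ⟨x, hx⟩ := hne
        have hxk : x < k := by
          have := hS.1 hx
          rwa [mem_range] at this
        refine ⟨(x, S.erase x), ?_, ?_⟩
        · rw [mem_product]
          refine ⟨by simp; omega, ?_⟩
          unfold low
          rw [mem_filter, mem_powerset, card_erase_of_mem hx]
          exact ⟨(erase_subset _ _).trans hS.1, by have := hS.2; show S.card - 1 ≤ D; omega⟩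
        · show (if x = k then S.erase x else insert x (S.erase x)) = S
          rw [if_neg (by omega), insert_erase hx]
    calc (low k (D + 1)).card ≤ _ := card_le_card hsub
      _ ≤ ((range (k + 1)) ×ˢ low k D).card := card_image_le
      _ = (k + 1) * (low k D).card := by rw [card_product, card_range]
      _ ≤ (k + 1) * (k + 1) ^ D := Nat.mul_le_mul_left _ ih
      _ = (k + 1) ^ (D + 1) := by rw [pow_succ, mul_comm]

theorem digit_low {j k n r : ℕ} (hj : j < k) : digit j (2 ^ k * n + r) = digit j r := by
  unfold digit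
  have h1 : 2 ^ k = 2 ^ j * (2 * 2 ^ (k - j - 1)) := by
    rw [← pow_succ', ← pow_add]
    congr 1
    omega
  have h2 : (2 ^ k * n + r) / 2 ^ j = 2 * (2 ^ (k - j - 1) * n) + r / 2 ^ j := by
    rw [h1, mul_assoc, Nat.mul_add_div (by positivity), mul_assoc]
  rw [h2]
  push_cast
  have : (2 : ZMod 2) = 0 := by decide
  rw [this, zero_mul, zero_add]

theorem digit_high {j k n r : ℕ} (hj : k ≤ j) (hr : r < 2 ^ k) :
    digit j (2 ^ k * n + r) = digit j (2 ^ k * n) := by
  unfold digit
  have h1 : 2 ^ j = 2 ^ k * 2 ^ (j - k) := by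
    rw [← pow_add]
    congr 1
    omega
  have hk : 0 < 2 ^ k := by positivity
  have h2 : (2 ^ k * n + r) / 2 ^ j = (2 ^ k * n) / 2 ^ j := by
    rw [h1, ← Nat.div_div_eq_div_mul, ← Nat.div_div_eq_div_mul, Nat.mul_add_div hk,
      Nat.div_eq_of_lt hr, add_zero, Nat.mul_div_cancel_left _ hk]
  rw [h2]

/-- the types of the outputs of `R` computations with `Q` states -/
abbrev Ty (R Q : ℕ) : Type := Fin R → Fin Q ⊕ (Fin Q → ZMod 2)

theorem DigitPoly.rank {D R Q : ℕ} {u : ℕ → ZMod 2} (hu : DigitPoly D R Q u) (k : ℕ) :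
    ∃ g h : (Ty R Q × {S // S ∈ low k D}) → ℕ → ZMod 2, ∀ n r : ℕ, 1 ≤ n → r < 2 ^ k →
      u (2 ^ k * n + r) = ∑ j, g j r * h j n := by
  classical
  obtain ⟨v, M, Φ, hv, hM, hu⟩ := hu
  choose τ hτ using fun z => Pool.Agent.N493.PD.OnePass.types (hv z) k
  set ty : ℕ → Ty R Q := fun r z => τ z r with hty
  set rep : Ty R Q → ℕ := fun θ =>
    if h : ∃ r, r < 2 ^ k ∧ ty r = θ then h.choose else 0 with hrep
  have hrep' : ∀ r, r < 2 ^ k → rep (ty r) < 2 ^ k ∧ ty (rep (ty r)) = ty r := by
    intro r hr
    have h : ∃ r', r' < 2 ^ k ∧ ty r' = ty r := ⟨r, hr, rfl⟩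
    have h2 : rep (ty r) = h.choose := by
      rw [hrep]
      simp only
      rw [dif_pos h]
    rw [h2]
    exact h.choose_spec
  refine ⟨fun p r => if ty r = p.1 then ∏ j ∈ p.2.1, digit j r else 0,
    fun p n => ∑ S ∈ M.filter (fun S => S.filter (fun j => j < k) = p.2.1),
      Φ S (fun z => v z (2 ^ k * n + rep p.1)) * ∏ j ∈ S.filter (fun j => ¬ j < k),
        digit j (2 ^ k * n), ?_⟩
  intro n r hn hr
  rw [Fintype.sum_prod_type]
  simp only [ite_mul, zero_mul]
  rw [Finset.sum_eq_single (ty r)]
  · have e1 : ∀ S : {S // S ∈ low k D}, (if ty r = ty r then (∏ j ∈ S.1, digit j r) *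
        ∑ S' ∈ M.filter (fun S' => S'.filter (fun j => j < k) = S.1),
          Φ S' (fun z => v z (2 ^ k * n + rep (ty r))) * ∏ j ∈ S'.filter (fun j => ¬ j < k),
            digit j (2 ^ k * n) else 0) =
        ∑ S' ∈ M.filter (fun S' => S'.filter (fun j => j < k) = S.1),
          Φ S' (fun z => v z (2 ^ k * n + r)) * ∏ j ∈ S', digit j (2 ^ k * n + r) := by
      intro S
      rw [if_pos rfl, Finset.mul_sum]
      refine Finset.sum_congr rfl fun S' hS' => ?_
      rw [mem_filter] at hS'
      have e2 : (fun z => v z (2 ^ k * n + rep (ty r))) = fun z => v z (2 ^ k * n + r) := by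
        funext z
        obtain ⟨q1, q2⟩ := hrep' r hr
        exact hτ z _ _ q1 hr (congrFun q2 z) n hn
      have e3 : ∏ j ∈ S', digit j (2 ^ k * n + r) =
          (∏ j ∈ S.1, digit j r) * ∏ j ∈ S'.filter (fun j => ¬ j < k), digit j (2 ^ k * n) := by
        rw [← Finset.prod_filter_mul_prod_filter_not S' (fun j => j < k), hS'.2]
        congr 1
        · refine Finset.prod_congr rfl fun j hj => ?_
          rw [← hS'.2, mem_filter] at hj
          exact digit_low hj.2
        · refine Finset.prod_congr rfl fun j hj => ?_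
          rw [mem_filter] at hj
          exact digit_high (by omega) hr
      rw [e2, e3]
      ring
    rw [Finset.sum_congr rfl fun S _ => e1 S, hu]
    have e4 := Finset.sum_coe_sort (low k D) (fun S : Finset ℕ =>
      ∑ S' ∈ M.filter (fun S' => S'.filter (fun j => j < k) = S),
          Φ S' (fun z => v z (2 ^ k * n + r)) * ∏ j ∈ S', digit j (2 ^ k * n + r))
    rw [e4, Finset.sum_fiberwise_of_maps_to]
    intro S hS
    unfold low
    rw [mem_filter, mem_powerset]
    refine ⟨fun j hj => ?_, (card_filter_le _ _).trans (hM S hS)⟩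
    rw [mem_filter] at hj
    exact mem_range.2 hj.2
  · intro θ _ hθ
    apply Finset.sum_eq_zero
    intro S _
    rw [if_neg (fun h => hθ h.symm)]
  · intro h
    exact absurd (mem_univ _) h

end Pool.Agent.U286.DP
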